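import Mathlib

/-!
Row ZER: a bounded holomorphic function on a disc, not small at one point, is a product of linear factors
and a function which is bounded from above and below.
-/

set_option autoImplicit false

namespace Pool.Agent.H34.GZZ

/-- the zeros of a function on a disc of radius `R` -/
def T_ZER : Prop := ∀ C1 c2 : ℝ, 0 < c2 → ∃ (n0 : ℕ) (c C : ℝ), 0 < c ∧ 0 < C ∧
  ∀ (Z : ℂ → ℂ) (s0 : ℂ) (R : ℝ), Differentiable ℂ Z → 0 < R →
  (∀ s, ‖s - s0‖ ≤ R → ‖Z s‖ ≤ C1) → (∃ s1, ‖s1 - s0‖ ≤ R / 16 ∧ c2 ≤ ‖Z s1‖) →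
  ∃ (n : ℕ) (z : Fin n → ℂ), n ≤ n0 ∧ (∀ i, ‖z i - s0‖ ≤ R / 4) ∧
    (∀ s, ‖s - s0‖ ≤ R → ‖Z s‖ ≤ C * (R ^ n)⁻¹ * ∏ i, ‖s - z i‖) ∧
    ∀ s, ‖s - s0‖ ≤ R / 32 → c * (R ^ n)⁻¹ * ∏ i, ‖s - z i‖ ≤ ‖Z s‖

/-- division by a linear factor -/
lemma zer_div {g : ℂ → ℂ} (hg : Differentiable ℂ g) {a : ℂ} (ha : g a = 0) :
    ∃ g1 : ℂ → ℂ, Differentiable ℂ g1 ∧ ∀ u, g u = (u - a) * g1 u := by
  refine ⟨dslope g a, ?_, ?_⟩
  · have h := (Complex.differentiableOn_dslope (s := Set.univ) (c := a) Filter.univ_mem).2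
      hg.differentiableOn
    exact differentiableOn_univ.1 h
  · intro u
    have h := sub_smul_dslope g a u
    rw [smul_eq_mul, ha, sub_zero] at h
    exact h.symm

/-- bound for the cofactor -/
lemma zer_max {W g : ℂ → ℂ} (hg : Differentiable ℂ g) {C1 : ℝ} {n : ℕ} {w : Fin n → ℂ}
    (hw : ∀ i, ‖w i‖ ≤ 1 / 4) (hW : ∀ u, ‖u‖ ≤ 1 → ‖W u‖ ≤ C1)
    (h : ∀ u, W u = (∏ i, (u - w i)) * g u) : ∀ u, ‖u‖ ≤ 1 → ‖g u‖ ≤ C1 * (4 / 3) ^ n := by
  intro u hu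
  refine Complex.norm_le_of_forall_mem_frontier_norm_le (U := Metric.ball (0 : ℂ) 1)
    Metric.isBounded_ball hg.diffContOnCl ?_ ?_
  · intro v hv
    rw [frontier_ball (0 : ℂ) one_ne_zero, mem_sphere_zero_iff_norm] at hv
    have h1 := hW v hv.le
    rw [h v, norm_mul, norm_prod] at h1
    have h2 : (3 / 4 : ℝ) ^ n ≤ ∏ i, ‖v - w i‖ := by
      calc (3 / 4 : ℝ) ^ n = ∏ _i : Fin n, (3 / 4 : ℝ) := by
            rw [Finset.prod_const, Finset.card_univ, Fintype.card_fin]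
        _ ≤ _ := by
          refine Finset.prod_le_prod (fun i _ => by norm_num) (fun i _ => ?_)
          have h3 := norm_sub_norm_le v (w i)
          have h4 := hw i
          rw [hv] at h3
          linarith
    have h5 : (3 / 4 : ℝ) ^ n * ‖g v‖ ≤ C1 :=
      (mul_le_mul_of_nonneg_right h2 (norm_nonneg _)).trans h1
    have h6 : (4 / 3 : ℝ) ^ n * (3 / 4) ^ n = 1 := by
      rw [← mul_pow]
      norm_num
    calc ‖g v‖ = (4 / 3 : ℝ) ^ n * ((3 / 4) ^ n * ‖g v‖) := by rw [← mul_assoc, h6, one_mul]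
      _ ≤ (4 / 3 : ℝ) ^ n * C1 := mul_le_mul_of_nonneg_left h5 (by positivity)
      _ = _ := by ring
  · rw [closure_ball (0 : ℂ) one_ne_zero]
    simpa using hu

/-- lower bound for the cofactor at the point `u1` -/
lemma zer_low {W g : ℂ → ℂ} {c2 : ℝ} {n : ℕ} {w : Fin n → ℂ}
    (hw : ∀ i, ‖w i‖ ≤ 1 / 4) {u1 : ℂ} (hu1 : ‖u1‖ ≤ 1 / 16) (h1 : c2 ≤ ‖W u1‖)
    (h : ∀ u, W u = (∏ i, (u - w i)) * g u) : c2 * (16 / 5) ^ n ≤ ‖g u1‖ := by
  rw [h u1, norm_mul, norm_prod] at h1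
  have h2 : ∏ i, ‖u1 - w i‖ ≤ (5 / 16 : ℝ) ^ n := by
    calc ∏ i, ‖u1 - w i‖ ≤ ∏ _i : Fin n, (5 / 16 : ℝ) := by
          refine Finset.prod_le_prod (fun i _ => norm_nonneg _) (fun i _ => ?_)
          have := norm_sub_le u1 (w i)
          have := hw i
          linarith
      _ = _ := by rw [Finset.prod_const, Finset.card_univ, Fintype.card_fin]
  have h3 : c2 ≤ (5 / 16 : ℝ) ^ n * ‖g u1‖ :=
    h1.trans (mul_le_mul_of_nonneg_right h2 (norm_nonneg _))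
  have h4 : (16 / 5 : ℝ) ^ n * (5 / 16) ^ n = 1 := by
    rw [← mul_pow]
    norm_num
  calc c2 * (16 / 5) ^ n ≤ ((5 / 16 : ℝ) ^ n * ‖g u1‖) * (16 / 5) ^ n :=
        mul_le_mul_of_nonneg_right h3 (by positivity)
    _ = ((16 / 5 : ℝ) ^ n * (5 / 16) ^ n) * ‖g u1‖ := by ring
    _ = _ := by rw [h4, one_mul]

/-- lower bound for a function without zeros -/
lemma zer_bc {g : ℂ → ℂ} (hg : Differentiable ℂ g) {G b : ℝ} (hb : 0 < b)
    (hG : ∀ u, ‖u‖ ≤ 1 → ‖g u‖ ≤ G) (h0 : ∀ u, ‖u‖ ≤ 1 / 4 → g u ≠ 0) {u1 : ℂ}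
    (hu1 : ‖u1‖ ≤ 1 / 16) (hb1 : b ≤ ‖g u1‖) : ∀ u, ‖u‖ ≤ 1 / 32 →
      b * Real.exp (-(2 * (Real.log (G / b) + 1))) ≤ ‖g u‖ := by
  intro u hu
  -- the function on the ball around `u1`
  have hball : ∀ v ∈ Metric.ball (0 : ℂ) (3 / 16), ‖u1 + v‖ ≤ 1 / 4 := by
    intro v hv
    have h1 := norm_add_le u1 v
    have h2 : ‖v‖ < 3 / 16 := by simpa using hv
    linarith
  have hne : ∀ v ∈ Metric.ball (0 : ℂ) (3 / 16), g (u1 + v) ≠ 0 := fun v hv => h0 _ (hball v hv)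
  have hsh : Differentiable ℂ (fun v => g (u1 + v)) := hg.comp (by fun_prop)
  have hdg : Differentiable ℂ (deriv (fun v => g (u1 + v))) :=
    (Differentiable.contDiff hsh (n := 2)).differentiable_deriv_two
  have hq : DifferentiableOn ℂ (fun v => deriv (fun v => g (u1 + v)) v / g (u1 + v))
      (Metric.ball 0 (3 / 16)) := by
    intro v hv
    exact ((hdg v).div (hsh v) (hne v hv)).differentiableWithinAt
  obtain ⟨f, hf0, hf⟩ := hq.isExactOn_ball.with_val_at 0 (0 : ℂ)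
  have hfd : DifferentiableOn ℂ f (Metric.ball 0 (3 / 16)) := fun v hv =>
    (hf v hv).differentiableAt.differentiableWithinAt
  have hb0 : (0 : ℂ) ∈ Metric.ball (0 : ℂ) (3 / 16) := by
    rw [Metric.mem_ball, dist_self]
    norm_num
  -- the exponential
  have hexp : ∀ v ∈ Metric.ball (0 : ℂ) (3 / 16), g (u1 + v) * Complex.exp (-f v) = g u1 := by
    intro v hv
    have hd : ∀ x ∈ Metric.ball (0 : ℂ) (3 / 16),
        HasDerivAt (fun v => g (u1 + v) * Complex.exp (-f v)) 0 x := by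
      intro x hx
      have e1 := (hsh x).hasDerivAt
      have e2 := ((hf x hx).neg).cexp
      have e3 := e1.mul e2
      refine e3.congr_deriv ?_
      have := hne x hx
      field_simp
      ring
    have h1 := (Metric.isOpen_ball (x := (0 : ℂ)) (ε := 3 / 16)).is_const_of_deriv_eq_zero
      (convex_ball (0 : ℂ) (3 / 16)).isPreconnected
      (fun x hx => (hd x hx).differentiableAt.differentiableWithinAt)
      (fun x hx => (hd x hx).deriv) hv hb0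
    rw [h1, hf0]
    simp
  have hexp2 : ∀ v ∈ Metric.ball (0 : ℂ) (3 / 16), ‖g (u1 + v)‖ = ‖g u1‖ * Real.exp (f v).re := by
    intro v hv
    have h1 := hexp v hv
    have h2 : g (u1 + v) = g u1 * Complex.exp (f v) := by
      rw [← h1, mul_assoc, ← Complex.exp_add]
      simp
    rw [h2, norm_mul, Complex.norm_exp]
  have hgu : 0 < ‖g u1‖ := hb.trans_le hb1
  have hGb : b ≤ G := hb1.trans (hG u1 (by linarith))
  have hlog : 0 ≤ Real.log (G / b) := Real.log_nonneg ((one_le_div hb).2 hGb)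
  obtain ⟨M, hM⟩ : ∃ M : ℝ, M = Real.log (G / b) + 1 := ⟨_, rfl⟩
  have hM0 : 0 < M := by rw [hM]; linarith
  have hre : ∀ v ∈ Metric.ball (0 : ℂ) (3 / 16), (f v).re ≤ M := by
    intro v hv
    have h1 := hexp2 v hv
    have h2 : ‖g u1‖ * Real.exp (f v).re ≤ G := by
      rw [← h1]
      exact hG _ ((hball v hv).trans (by norm_num))
    have h3 : Real.exp (f v).re ≤ G / b := by
      rw [le_div_iff₀ hb]
      calc Real.exp (f v).re * b ≤ Real.exp (f v).re * ‖g u1‖ :=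
            mul_le_mul_of_nonneg_left hb1 (Real.exp_pos _).le
        _ = ‖g u1‖ * Real.exp (f v).re := by ring
        _ ≤ G := h2
    have h4 := (Real.le_log_iff_exp_le (div_pos (hb.trans_le hGb) hb)).2 h3
    rw [hM]
    linarith
  -- the point
  obtain ⟨v, hv⟩ : ∃ v : ℂ, v = u - u1 := ⟨_, rfl⟩
  have hvn : ‖v‖ ≤ 3 / 32 := by
    rw [hv]
    have := norm_sub_le u u1
    linarith
  have hvb : v ∈ Metric.ball (0 : ℂ) (3 / 16) := by
    rw [Metric.mem_ball, dist_zero_right]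
    linarith
  have hbc := Complex.borelCaratheodory hM0 hfd hre (by norm_num) hvb
  rw [hf0, norm_zero, zero_mul, zero_div, add_zero] at hbc
  have hbc2 : ‖f v‖ ≤ 2 * M := by
    refine hbc.trans ?_
    rw [div_le_iff₀ (by linarith)]
    nlinarith
  have hfr : -(2 * M) ≤ (f v).re := by
    have := (abs_le.1 ((Complex.abs_re_le_norm (f v)).trans hbc2)).1
    exact this
  have h5 := hexp2 v hvb
  rw [show u1 + v = u by rw [hv]; ring] at h5
  rw [h5, ← hM]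
  exact mul_le_mul hb1 (Real.exp_le_exp.2 hfr) (Real.exp_pos _).le hgu.le

/-- the unit disc -/
lemma zer_unit (C1 c2 : ℝ) (hc2 : 0 < c2) : ∃ (n0 : ℕ) (c C : ℝ), 0 < c ∧ 0 < C ∧
    ∀ W : ℂ → ℂ, Differentiable ℂ W → (∀ u, ‖u‖ ≤ 1 → ‖W u‖ ≤ C1) →
    (∃ u1, ‖u1‖ ≤ 1 / 16 ∧ c2 ≤ ‖W u1‖) →
    ∃ (n : ℕ) (w : Fin n → ℂ), n ≤ n0 ∧ (∀ i, ‖w i‖ ≤ 1 / 4) ∧
      (∀ u, ‖u‖ ≤ 1 → ‖W u‖ ≤ C * ∏ i, ‖u - w i‖) ∧
      ∀ u, ‖u‖ ≤ 1 / 32 → c * ∏ i, ‖u - w i‖ ≤ ‖W u‖ := by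
  -- the number of the zeros
  obtain ⟨n0, hn0⟩ : ∃ n0 : ℕ, C1 / c2 < 2 ^ n0 := pow_unbounded_of_one_lt _ (by norm_num)
  rcases lt_or_ge C1 c2 with hlt | hge
  · refine ⟨0, 1, 1, one_pos, one_pos, ?_⟩
    rintro W hW hWC ⟨u1, hu1, hu1'⟩
    have := hWC u1 (by linarith)
    linarith
  have hC1 : 0 < C1 := hc2.trans_le hge
  obtain ⟨G, hG⟩ : ∃ G : ℝ, G = C1 * (4 / 3) ^ n0 := ⟨_, rfl⟩
  have hG0 : 0 < G := by rw [hG]; positivity
  refine ⟨n0, c2 * Real.exp (-(2 * (Real.log (G / c2) + 1))), G, by positivity, hG0, ?_⟩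
  rintro W hW hWC ⟨u1, hu1, hu1'⟩
  -- factorisations
  have hfac : ∀ (n : ℕ) (w : Fin n → ℂ) (g : ℂ → ℂ), Differentiable ℂ g → (∀ i, ‖w i‖ ≤ 1 / 4) →
      (∀ u, W u = (∏ i, (u - w i)) * g u) → n ≤ n0 := by
    intro n w g hg hw h
    have h1 := zer_max hg hw hWC h u1 (by linarith)
    have h2 := zer_low hw hu1 hu1' h
    have h3 : c2 * (16 / 5) ^ n ≤ C1 * (4 / 3) ^ n := h2.trans h1
    by_contra hn
    push Not at hn
    have h4 : (2 : ℝ) ^ n ≤ C1 / c2 := by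
      rw [le_div_iff₀ hc2]
      have h5 : (2 : ℝ) ^ n * (4 / 3) ^ n ≤ (16 / 5) ^ n := by
        rw [← mul_pow]
        exact pow_le_pow_left₀ (by norm_num) (by norm_num) n
      have h6 : (0 : ℝ) < (4 / 3) ^ n := by positivity
      have h7 : (2 : ℝ) ^ n * c2 * (4 / 3) ^ n ≤ C1 * (4 / 3) ^ n := by
        calc (2 : ℝ) ^ n * c2 * (4 / 3) ^ n = c2 * (2 ^ n * (4 / 3) ^ n) := by ring
          _ ≤ c2 * (16 / 5) ^ n := mul_le_mul_of_nonneg_left h5 hc2.le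
          _ ≤ _ := h3
      exact le_of_mul_le_mul_right h7 h6
    have h8 : (2 : ℝ) ^ n0 ≤ 2 ^ n := pow_le_pow_right₀ (by norm_num) hn.le
    linarith
  -- the largest factorisation
  obtain ⟨n, ⟨w, g, hg, hw, h⟩, hmax⟩ : ∃ n : ℕ, (∃ (w : Fin n → ℂ) (g : ℂ → ℂ),
      Differentiable ℂ g ∧ (∀ i, ‖w i‖ ≤ 1 / 4) ∧ ∀ u, W u = (∏ i, (u - w i)) * g u) ∧
      ¬ ∃ (w : Fin (n + 1) → ℂ) (g : ℂ → ℂ),
      Differentiable ℂ g ∧ (∀ i, ‖w i‖ ≤ 1 / 4) ∧ ∀ u, W u = (∏ i, (u - w i)) * g u := by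
    by_contra hc
    push Not at hc
    have hall : ∀ n : ℕ, ∃ (w : Fin n → ℂ) (g : ℂ → ℂ),
        Differentiable ℂ g ∧ (∀ i, ‖w i‖ ≤ 1 / 4) ∧ ∀ u, W u = (∏ i, (u - w i)) * g u := by
      intro n
      induction n with
      | zero => exact ⟨Fin.elim0, W, hW, fun i => i.elim0, fun u => by simp⟩
      | succ n ih =>
        obtain ⟨w, g, hg, hw, h⟩ := ih
        exact hc n ⟨w, g, hg, hw, h⟩
    obtain ⟨w, g, hg, hw, h⟩ := hall (n0 + 1)
    have := hfac (n0 + 1) w g hg hw h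
    omega
  have hn := hfac n w g hg hw h
  have hnz : ∀ u, ‖u‖ ≤ 1 / 4 → g u ≠ 0 := by
    intro a ha h0
    obtain ⟨g1, hg1, hg1'⟩ := zer_div hg h0
    refine hmax ⟨Fin.cons a w, g1, hg1, ?_, ?_⟩
    · intro i
      refine Fin.cases ?_ (fun j => ?_) i
      · simpa using ha
      · simpa using hw j
    · intro u
      rw [Fin.prod_univ_succ, h u, hg1' u]
      simp only [Fin.cons_zero, Fin.cons_succ]
      ring
  have hGn : C1 * (4 / 3) ^ n ≤ G := by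
    rw [hG]
    exact mul_le_mul_of_nonneg_left (pow_le_pow_right₀ (by norm_num) hn) hC1.le
  have hgG : ∀ u, ‖u‖ ≤ 1 → ‖g u‖ ≤ G := fun u hu => (zer_max hg hw hWC h u hu).trans hGn
  have hgl : c2 ≤ ‖g u1‖ := by
    refine le_trans ?_ (zer_low hw hu1 hu1' h)
    exact le_mul_of_one_le_right hc2.le (one_le_pow₀ (by norm_num))
  refine ⟨n, w, hn, hw, ?_, ?_⟩
  · intro u hu
    rw [h u, norm_mul, norm_prod, mul_comm]
    exact mul_le_mul_of_nonneg_right (hgG u hu) (Finset.prod_nonneg (fun i _ => norm_nonneg _))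
  · intro u hu
    rw [h u, norm_mul, norm_prod, mul_comm]
    exact mul_le_mul_of_nonneg_left (zer_bc hg hc2 hgG hnz hu1 hgl u hu)
      (Finset.prod_nonneg (fun i _ => norm_nonneg _))

theorem pf_ZER : T_ZER := by
  intro C1 c2 hc2
  obtain ⟨n0, c, C, hc, hC, h⟩ := zer_unit C1 c2 hc2
  refine ⟨n0, c, C, hc, hC, ?_⟩
  rintro Z s0 R hZ hR hZC ⟨s1, hs1, hs1'⟩
  have hRn : ‖(R : ℂ)‖ = R := by rw [Complex.norm_real, Real.norm_eq_abs, abs_of_pos hR]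
  have hRc : (R : ℂ) ≠ 0 := by exact_mod_cast hR.ne'
  have hsc : ∀ (s : ℂ) (a : ℝ), ‖s - s0‖ ≤ R * a → ‖(s - s0) / R‖ ≤ a := by
    intro s a hs
    rw [norm_div, hRn, div_le_iff₀ hR]
    linarith
  obtain ⟨n, w, hn, hw, hw1, hw2⟩ := h (fun u => Z (s0 + R * u)) (hZ.comp (by fun_prop))
    (fun u hu => hZC _ (by
      rw [add_sub_cancel_left, norm_mul, hRn]
      nlinarith))
    ⟨(s1 - s0) / R, hsc s1 _ (by linarith), by
      rw [mul_div_cancel₀ _ hRc, add_sub_cancel]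
      exact hs1'⟩
  have hval : ∀ s, Z (s0 + R * ((s - s0) / R)) = Z s := by
    intro s
    rw [mul_div_cancel₀ _ hRc, add_sub_cancel]
  have hprod : ∀ s : ℂ, ∏ i, ‖(s - s0) / R - w i‖ = (R ^ n)⁻¹ * ∏ i, ‖s - (s0 + R * w i)‖ := by
    intro s
    have h1 : ∀ i, ‖(s - s0) / R - w i‖ = R⁻¹ * ‖s - (s0 + R * w i)‖ := by
      intro i
      have h2 : (s - s0) / R - w i = (R : ℂ)⁻¹ * (s - (s0 + R * w i)) := by
        field_simp
        ring
      rw [h2, norm_mul, norm_inv, hRn]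
    rw [Finset.prod_congr rfl (fun i _ => h1 i), Finset.prod_mul_distrib, Finset.prod_const,
      Finset.card_univ, Fintype.card_fin, inv_pow]
  refine ⟨n, fun i => s0 + R * w i, hn, ?_, ?_, ?_⟩
  · intro i
    rw [add_sub_cancel_left, norm_mul, hRn]
    have := hw i
    nlinarith
  · intro s hs
    have h1 := hw1 ((s - s0) / R) (hsc s 1 (by linarith))
    rw [hval s, hprod s, ← mul_assoc] at h1
    exact h1
  · intro s hs
    have h1 := hw2 ((s - s0) / R) (hsc s (1 / 32) (by linarith))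
    rw [hval s, hprod s, ← mul_assoc] at h1
    exact h1

end Pool.Agent.H34.GZZ
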