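import Pool.Agent.H34.GZZ.ZER

/-!
Row ZEU: the factorisation of T_ZER in the form used near the critical line.
-/

set_option autoImplicit false

namespace Pool.Agent.H34.GZZ

/-- an entire function bounded on a disc of radius `R` around `1/2 + it` and on the critical line, not
small at one point: lower and upper bounds by products of linear factors -/
def T_ZEU : Prop := ∀ C1 c2 : ℝ, 0 < c2 → ∃ (n0 : ℕ) (c C : ℝ), 0 < c ∧ 0 < C ∧
  ∀ (Z : ℂ → ℂ) (t R : ℝ), Differentiable ℂ Z → 32 ≤ R →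
  (∀ s : ℂ, ‖s - (1 / 2 + t * Complex.I)‖ ≤ R → ‖Z s‖ ≤ C1) →
  (∀ u : ℝ, ‖Z (1 / 2 + u * Complex.I)‖ ≤ C1) →
  (∃ s1 : ℂ, ‖s1 - (1 / 2 + t * Complex.I)‖ ≤ R / 16 ∧ c2 ≤ ‖Z s1‖) →
  ∃ (n : ℕ) (z : Fin n → ℂ), n ≤ n0 ∧
    ∀ s : ℂ, ‖s - (1 / 2 + t * Complex.I)‖ ≤ 1 →
      c * (R ^ n)⁻¹ * ((∏ i, min 1 ‖s - z i‖) * ∏ i, max 1 ‖s - z i‖) ≤ ‖Z s‖ ∧
      ∀ u : ℝ, ‖Z (1 / 2 + u * Complex.I)‖ ≤
        (C * (R ^ n)⁻¹ * ∏ i, max 1 ‖s - z i‖) * (1 + |u - s.im|) ^ n

theorem pf_ZEU : T_ZEU := by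
  intro C1 c2 hc2
  obtain ⟨n0, c, C, hc, hC, h⟩ := pf_ZER C1 c2 hc2
  refine ⟨n0, c, C * 2 ^ n0 + |C1|, hc, by positivity, ?_⟩
  intro Z t R hZ hR hd hl h1
  obtain ⟨n, z, hn, -, hup, hlo⟩ := h Z (1 / 2 + t * Complex.I) R hZ (by linarith) hd h1
  refine ⟨n, z, hn, fun s hs => ⟨?_, fun u => ?_⟩⟩
  · rw [← Finset.prod_mul_distrib]
    have e : (∏ i, min 1 ‖s - z i‖ * max 1 ‖s - z i‖) = ∏ i, ‖s - z i‖ :=
      Finset.prod_congr rfl fun i _ => by rw [min_mul_max, one_mul]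
    rw [e]
    exact hlo s (hs.trans (by linarith))
  · have hR0 : 0 < R := by linarith
    have hQ1 : 1 ≤ ∏ i, max 1 ‖s - z i‖ := by
      calc (1 : ℝ) = ∏ _i : Fin n, (1 : ℝ) := Finset.prod_const_one.symm
        _ ≤ _ := Finset.prod_le_prod (fun _ _ => zero_le_one) fun i _ => le_max_left _ _
    have hx0 : 0 ≤ |u - s.im| := abs_nonneg _
    have hdist : ‖(1 / 2 + u * Complex.I : ℂ) - (1 / 2 + t * Complex.I)‖ = |u - t| := by
      have e : (1 / 2 + u * Complex.I : ℂ) - (1 / 2 + t * Complex.I) =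
          ((u - t : ℝ) : ℂ) * Complex.I := by
        push_cast
        ring
      rw [e, norm_mul, Complex.norm_I, mul_one, Complex.norm_real, Real.norm_eq_abs]
    have him : |s.im - t| ≤ 1 := by
      have h2 := Complex.abs_im_le_norm (s - (1 / 2 + t * Complex.I))
      have e : (s - (1 / 2 + t * Complex.I)).im = s.im - t := by
        simp
      rw [e] at h2
      exact h2.trans hs
    have hre : |s.re - 1 / 2| ≤ 1 := by
      have h2 := Complex.abs_re_le_norm (s - (1 / 2 + t * Complex.I))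
      have e : (s - (1 / 2 + t * Complex.I)).re = s.re - 1 / 2 := by
        simp
      rw [e] at h2
      exact h2.trans hs
    rcases le_or_gt |u - t| R with hu | hu
    · have h3 := hup (1 / 2 + u * Complex.I) (by rw [hdist]; exact hu)
      have h4 : ‖(1 / 2 + u * Complex.I : ℂ) - s‖ ≤ 1 + |u - s.im| := by
        have h5 := Complex.norm_le_abs_re_add_abs_im ((1 / 2 + u * Complex.I : ℂ) - s)
        have e1 : ((1 / 2 + u * Complex.I : ℂ) - s).re = -(s.re - 1 / 2) := by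
          simp
        have e2 : ((1 / 2 + u * Complex.I : ℂ) - s).im = u - s.im := by
          simp
        rw [e1, e2, abs_neg] at h5
        linarith
      have h5 : ∏ i, ‖(1 / 2 + u * Complex.I : ℂ) - z i‖ ≤
          2 ^ n0 * ((∏ i, max 1 ‖s - z i‖) * (1 + |u - s.im|) ^ n) := by
        have h6 : ∀ i, ‖(1 / 2 + u * Complex.I : ℂ) - z i‖ ≤
            2 * (max 1 ‖s - z i‖ * (1 + |u - s.im|)) := by
          intro i
          have h7 : ‖(1 / 2 + u * Complex.I : ℂ) - z i‖ ≤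
              ‖(1 / 2 + u * Complex.I : ℂ) - s‖ + ‖s - z i‖ := by
            have h8 := norm_add_le ((1 / 2 + u * Complex.I : ℂ) - s) (s - z i)
            rwa [sub_add_sub_cancel] at h8
          have h8 : ‖s - z i‖ ≤ max 1 ‖s - z i‖ := le_max_right _ _
          have h9 : 1 ≤ max 1 ‖s - z i‖ := le_max_left _ _
          nlinarith
        calc ∏ i, ‖(1 / 2 + u * Complex.I : ℂ) - z i‖ ≤
              ∏ i : Fin n, (2 * (max 1 ‖s - z i‖ * (1 + |u - s.im|))) :=
              Finset.prod_le_prod (fun i _ => norm_nonneg _) fun i _ => h6 i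
          _ = 2 ^ n * ((∏ i, max 1 ‖s - z i‖) * (1 + |u - s.im|) ^ n) := by
              simp only [Finset.prod_mul_distrib, Finset.prod_const, Finset.card_univ,
                Fintype.card_fin]
          _ ≤ _ := by
              refine mul_le_mul_of_nonneg_right (pow_le_pow_right₀ (by norm_num) hn) ?_
              positivity
      calc ‖Z (1 / 2 + u * Complex.I)‖ ≤ C * (R ^ n)⁻¹ *
            (2 ^ n0 * ((∏ i, max 1 ‖s - z i‖) * (1 + |u - s.im|) ^ n)) :=
            h3.trans (mul_le_mul_of_nonneg_left h5 (by positivity))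
        _ = (C * 2 ^ n0) * ((R ^ n)⁻¹ * ((∏ i, max 1 ‖s - z i‖) * (1 + |u - s.im|) ^ n)) := by
            ring
        _ ≤ (C * 2 ^ n0 + |C1|) *
            ((R ^ n)⁻¹ * ((∏ i, max 1 ‖s - z i‖) * (1 + |u - s.im|) ^ n)) := by
            refine mul_le_mul_of_nonneg_right (le_add_of_nonneg_right (abs_nonneg _)) ?_
            positivity
        _ = _ := by ring
    · have h4 : R ≤ 1 + |u - s.im| := by
        have h5 := abs_sub_le u s.im t
        linarith
      have h5 : R ^ n ≤ (1 + |u - s.im|) ^ n := pow_le_pow_left₀ hR0.le h4 n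
      have h6 : 1 ≤ (R ^ n)⁻¹ * ((∏ i, max 1 ‖s - z i‖) * (1 + |u - s.im|) ^ n) := by
        have h7 : R ^ n ≤ (∏ i, max 1 ‖s - z i‖) * (1 + |u - s.im|) ^ n :=
          h5.trans (le_mul_of_one_le_left (by positivity) hQ1)
        rw [inv_mul_eq_div, one_le_div (by positivity)]
        exact h7
      calc ‖Z (1 / 2 + u * Complex.I)‖ ≤ |C1| := (hl u).trans (le_abs_self _)
        _ ≤ C * 2 ^ n0 + |C1| := le_add_of_nonneg_left (by positivity)
        _ ≤ (C * 2 ^ n0 + |C1|) *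
            ((R ^ n)⁻¹ * ((∏ i, max 1 ‖s - z i‖) * (1 + |u - s.im|) ^ n)) :=
            le_mul_of_one_le_right (by positivity) h6
        _ = _ := by ring

end Pool.Agent.H34.GZZ
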